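import Pool.Agent.H23.FacTwo

set_option autoImplicit false

namespace Pool.Agent.Results.MP_11aa79_an.PairsDoNotFactor

open Pool.Agent.H23.Fac

/-- `A = I₀(F₂)`: absolutely summable complex functions on the free group of rank two with sum
zero. -/
def A : Set (FreeGroup (Fin 2) → ℂ) := {f | Summable (fun s => ‖f s‖) ∧ ∑' s, f s = 0}

/-- the convolution product `(b * c)(s) = ∑_t b(t) c(t⁻¹ s)` -/
noncomputable def prod (b c : FreeGroup (Fin 2) → ℂ) : FreeGroup (Fin 2) → ℂ :=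
  fun s => ∑' t, b t * c (t⁻¹ * s)

/-- Two elements of `A` without a common left factor in `A`. -/
theorem result : ∃ a₁ ∈ A, ∃ a₂ ∈ A, ¬ ∃ b ∈ A, ∃ c₁ ∈ A, ∃ c₂ ∈ A, a₁ = prod b c₁ ∧ a₂ = prod b c₂ := by
  have hdl : ∀ g : FreeGroup (Fin 2), HasSum (fun s => dl g s) 1 := by
    intro g
    have h1 : (1 : ℂ) = dl g g := by simp [dl]
    rw [h1]
    apply hasSum_single
    intro b hb
    simp [dl, hb]
  have hdn : ∀ g : FreeGroup (Fin 2), Summable (fun s => ‖dl g s‖) := by
    intro g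
    apply summable_of_ne_finset_zero (s := {g})
    intro b hb
    simp only [Finset.mem_singleton] at hb
    simp [dl, hb]
  have hmem : ∀ g : FreeGroup (Fin 2), (fun s => dl 1 s - dl g s) ∈ A := by
    intro g
    refine ⟨?_, ?_⟩
    · exact Summable.of_nonneg_of_le (fun _ => norm_nonneg _) (fun s => norm_sub_le _ _)
        ((hdn 1).add (hdn g))
    · have := ((hdl 1).sub (hdl g)).tsum_eq
      simpa using this
  refine ⟨_, hmem (FreeGroup.of 0), _, hmem (FreeGroup.of 1), ?_⟩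
  rintro ⟨b, hb, c₁, hc₁, c₂, hc₂, e1, e2⟩
  exact no_common_factor_two b c₁ c₂ hb.1 hb.2 hc₁.1 hc₂.1 e1.symm e2.symm

end Pool.Agent.Results.MP_11aa79_an.PairsDoNotFactor
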